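import Mathlib
import Pool.Agent.W872.CC.Defs
import Pool.Agent.W872.CC.Run
import Pool.Agent.W872.CC.Ult
import Pool.Agent.W872.CC.Prec
import Pool.Agent.W872.CC.Card

/-!
# A precipitous ideal on `ω₂` does not give Choose a winning strategy in `U(ω₂, ω)`

Adding one Cohen real preserves precipitous ideals on `ω₂` and the continuum hypothesis, and in
the extension Choose has no winning strategy in the cut and choose game `U(ω₂, ω)`.

Proof. Every function from `ω₂` to the ordinals in the extension agrees on a positive set with a
function of the ground model, so a name for an ill-founded generic ultrapower of the extension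
gives an ill-founded generic ultrapower of the ground model.

Suppose `p₀` forces that `σ` is a winning strategy of Choose. Consider positions: a condition
below `p₀` which decides the answers of `σ` to a finite sequence of cuts of the ground model.
If the current sets of any two extensions of some position met, then the sets which contain the
current set of an extension would form a countably complete nonprincipal ultrafilter on `ω₂`.
So every position has two extensions with disjoint current sets, and it follows that for any two
conditions below a position there are extensions below these conditions with disjoint current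
sets. So Cut can use the Cohen real to choose between disjoint extensions again and again. For
each point it is dense that the point drops out of the current set, so the intersection of this
run is empty.
-/

namespace Pool.Agent.Results.MP_4faeaf_lc.CohenNoStrategy

open Cardinal Pool.Agent.Helper669.Forcing Pool.Agent.W872.CC

/-- Let `I` be a precipitous ideal on a set `K` of cardinality `ℵ₂`. Every Cohen condition forces:
all cardinals are preserved, `I` generates an ideal on `ω₂`, this ideal is precipitous, and
Choose has no winning strategy in the games `U(ω₂, ω)` and `U(ω₂, ≤ω)`. If the continuum
hypothesis holds, then every Cohen condition forces it. -/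
theorem result (K : Type) (hK : #K = ℵ_ 2) (I : Set (Set K)) (hI : IsIdeal I)
    (hp : Precipitous I) :
    (∀ p : Coh, p ∈ CardinalsPreserved.{0, 0} Coh) ∧
    (∀ p : Coh, p ∈ GenIsIdeal Coh I) ∧
    GenPrecipitous Coh I ∧
    (∀ p : Coh, p ∈ fnot (ChooseHasStrategy Coh K)) ∧
    (∀ p : Coh, p ∈ fnot (ChooseHasStrategyLe Coh K)) ∧
    ((𝔠 : Cardinal.{0}) = ℵ_ 1 → ∀ p : Coh, p ∈ ContinuumLe Coh W1) := by
  have hne : Nonempty K := by
    rw [← mk_ne_zero_iff, hK]
    exact (aleph_pos 2).ne'
  exact ⟨cardinalsPreserved, genIsIdeal hI, genPrecipitous hI hp,
    no_strategy (noUlt hK.le), no_strategyLe (noUlt hK.le), continuumLe⟩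

end Pool.Agent.Results.MP_4faeaf_lc.CohenNoStrategy
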